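import Pool.Agent.Work.MP_b17785_an.Gol.Stmts

set_option autoImplicit false

open Complex Metric Set Filter Topology MeasureTheory
open scoped ENNReal ComplexConjugate

namespace Pool.Agent.MultS
namespace Gol
namespace CrX

/-- pointwise identity on the circle -/
theorem pt (x : ℂ) (r : ℝ) (hr : 0 < r) (hx : r ≠ ‖x‖) (H : ℂ → ℂ) (z : ℂ) (hz : ‖z‖ = r) :
    z * I * (H z / ((r : ℂ) ^ 2 - conj x * z)) = I * (conj (1 / (z - x)) * H z) := by
  have hz0 : z ≠ 0 := by
    intro h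
    rw [h, norm_zero] at hz
    exact hr.ne hz
  have hzx : z - x ≠ 0 := by
    intro h
    apply hx
    rw [← hz, sub_eq_zero.1 h]
  have h1 : (r : ℂ) ^ 2 = z * conj z := by
    rw [Complex.mul_conj, Complex.normSq_eq_norm_sq, hz]
    push_cast
    ring
  have h2 : conj z - conj x ≠ 0 := by
    rw [← map_sub]
    exact (map_ne_zero _).2 hzx
  have h3 : (r : ℂ) ^ 2 - conj x * z = z * (conj z - conj x) := by
    rw [h1]
    ring
  rw [h3, map_div₀, map_one, map_sub]
  field_simp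

theorem innr (x : ℂ) (r : ℝ) (hr : 0 < r) (hx : r ≠ ‖x‖) (H : ℂ → ℂ) :
    (∮ z in C(0, r), H z / ((r : ℂ) ^ 2 - conj x * z)) =
      I * ∫ θ in (-Real.pi)..Real.pi,
        conj (1 / (circleMap 0 r θ - x)) * H (circleMap 0 r θ) := by
  unfold circleIntegral
  have h1 : ∀ θ : ℝ, deriv (circleMap 0 r) θ •
      (H (circleMap 0 r θ) / ((r : ℂ) ^ 2 - conj x * circleMap 0 r θ)) =
      I * (conj (1 / (circleMap 0 r θ - x)) * H (circleMap 0 r θ)) := by
    intro θ
    rw [deriv_circleMap, smul_eq_mul]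
    exact pt x r hr hx H _ (by simp [abs_of_pos hr])
  simp only [h1]
  rw [intervalIntegral.integral_const_mul]
  congr 1
  have hp : Function.Periodic (fun θ : ℝ => conj (1 / (circleMap 0 r θ - x)) *
      H (circleMap 0 r θ)) (2 * Real.pi) := by
    intro θ
    simp only [periodic_circleMap 0 r θ]
  have h2 := hp.intervalIntegral_add_eq 0 (-Real.pi)
  rw [zero_add] at h2
  rw [h2]
  congr 1
  ring

theorem diffH {φ : ℂ → ℂ} {P : ℝ} (hφ : DifferentiableOn ℂ φ (ball 0 P)) :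
    DifferentiableOn ℂ (deriv φ) (ball 0 P) := hφ.deriv isOpen_ball

theorem denom_ne (x z : ℂ) (r : ℝ) (h : ‖x‖ * ‖z‖ < r ^ 2) :
    (r : ℂ) ^ 2 - conj x * z ≠ 0 := by
  intro h0
  have h1 : (r : ℂ) ^ 2 = conj x * z := sub_eq_zero.1 h0
  have h2 : ‖(r : ℂ) ^ 2‖ = ‖x‖ * ‖z‖ := by
    rw [h1, norm_mul, RCLike.norm_conj]
  rw [norm_pow, Complex.norm_real, Real.norm_eq_abs, sq_abs] at h2
  linarith

theorem valBig {φ : ℂ → ℂ} {P : ℝ} (hP : 1 < P) (hφ : DifferentiableOn ℂ φ (ball 0 P)) (x : ℂ)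
    (r : ℝ) (hr1 : r < 1) (hx : ‖x‖ < r) :
    (∮ z in C(0, r), deriv φ z / ((r : ℂ) ^ 2 - conj x * z)) = 0 := by
  have hr : 0 < r := lt_of_le_of_lt (norm_nonneg _) hx
  have hd : DifferentiableOn ℂ (fun z => deriv φ z / ((r : ℂ) ^ 2 - conj x * z))
      (closedBall 0 r) := by
    apply DifferentiableOn.div
    · exact (diffH hφ).mono (closedBall_subset_ball (by linarith))
    · fun_prop
    · intro z hz
      apply denom_ne
      have hz' : ‖z‖ ≤ r := by simpa using hz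
      have : ‖x‖ * ‖z‖ ≤ ‖x‖ * r := mul_le_mul_of_nonneg_left hz' (norm_nonneg _)
      nlinarith
  apply circleIntegral_eq_zero_of_differentiable_on_off_countable hr.le countable_empty
    hd.continuousOn
  intro z hz
  exact (hd.mono ball_subset_closedBall).differentiableAt (isOpen_ball.mem_nhds hz.1)

theorem valSmall {φ : ℂ → ℂ} {P : ℝ} (hP : 1 < P) (hφ : DifferentiableOn ℂ φ (ball 0 P)) (x : ℂ)
    (r : ℝ) (hr : 0 < r) (hx : r < ‖x‖) (hx1 : ‖x‖ < 1) :
    (∮ z in C(0, r), deriv φ z / ((r : ℂ) ^ 2 - conj x * z)) =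
      -(2 * Real.pi * I / conj x) * deriv φ ((r : ℂ) ^ 2 / conj x) := by
  have hx0 : conj x ≠ 0 := by
    rw [Ne, map_eq_zero]
    intro h
    rw [h, norm_zero] at hx
    linarith
  have hw : (r : ℂ) ^ 2 / conj x ∈ ball (0 : ℂ) r := by
    rw [mem_ball_zero_iff, norm_div, RCLike.norm_conj, norm_pow, Complex.norm_real,
      Real.norm_eq_abs, sq_abs, div_lt_iff₀ (by linarith)]
    nlinarith
  have hd : DifferentiableOn ℂ (deriv φ) (closedBall 0 r) :=
    (diffH hφ).mono (closedBall_subset_ball (by linarith))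
  have hC := circleIntegral_sub_inv_smul_of_differentiable_on_off_countable (R := r) (c := 0)
    (w := (r : ℂ) ^ 2 / conj x) (f := deriv φ) countable_empty hw hd.continuousOn
    (fun z hz => (hd.mono ball_subset_closedBall).differentiableAt (isOpen_ball.mem_nhds hz.1))
  have h1 : ∀ z : ℂ, deriv φ z / ((r : ℂ) ^ 2 - conj x * z) =
      -(1 / conj x) • ((z - (r : ℂ) ^ 2 / conj x)⁻¹ • deriv φ z) := by
    intro z
    have h2 : (r : ℂ) ^ 2 - conj x * z = -(conj x) * (z - (r : ℂ) ^ 2 / conj x) := by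
      field_simp
      ring
    rw [h2, smul_eq_mul, smul_eq_mul, div_eq_mul_inv, mul_inv, inv_neg]
    ring
  simp only [h1]
  rw [circleIntegral.integral_smul, hC, smul_eq_mul, smul_eq_mul]
  ring

/-- the integrand -/
noncomputable def g (φ : ℂ → ℂ) (x z : ℂ) : ℂ := conj (1 / (z - x)) * deriv φ z

theorem meas_g (φ : ℂ → ℂ) (x : ℂ) : Measurable (g φ x) := by
  unfold g
  apply Measurable.mul
  · exact continuous_conj.measurable.comp
      (measurable_const.div (measurable_id.sub measurable_const))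
  · exact measurable_deriv φ

theorem int_g {φ : ℂ → ℂ} {P : ℝ} (hI : InvR) (hP : 1 < P)
    (hφ : DifferentiableOn ℂ φ (ball 0 P)) (x : ℂ) :
    IntegrableOn (g φ x) (ball (0 : ℂ) 1) := by
  have hd : ContinuousOn (deriv φ) (closedBall 0 1) :=
    ((diffH hφ).mono (closedBall_subset_ball hP)).continuousOn
  obtain ⟨C, hC⟩ := (isCompact_closedBall (0 : ℂ) 1).exists_bound_of_continuousOn hd
  refine Integrable.mono' ((hI x).mul_const C) (meas_g φ x).aestronglyMeasurable ?_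
  rw [ae_restrict_iff' measurableSet_ball]
  refine Eventually.of_forall fun z hz => ?_
  unfold g
  rw [norm_mul, RCLike.norm_conj, norm_div, norm_one]
  exact mul_le_mul_of_nonneg_left (hC z (ball_subset_closedBall hz)) (by positivity)

theorem polar_eq (r θ : ℝ) : Complex.polarCoord.symm (r, θ) = circleMap 0 r θ := by
  rw [Complex.polarCoord_symm_apply, circleMap, zero_add, Complex.exp_mul_I]
  push_cast
  ring

theorem toPolar {φ : ℂ → ℂ} {P : ℝ} (hI : InvR) (hP : 1 < P)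
    (hφ : DifferentiableOn ℂ φ (ball 0 P)) (x : ℂ) :
    ∫ z in ball (0 : ℂ) 1, g φ x z = ∫ r in Ioi (0 : ℝ), ∫ θ in Ioo (-Real.pi) Real.pi,
      r • (ball (0 : ℂ) 1).indicator (g φ x) (circleMap 0 r θ) := by
  set f : ℂ → ℂ := (ball (0 : ℂ) 1).indicator (g φ x) with hf
  have hfm : Measurable f := (meas_g φ x).indicator measurableSet_ball
  have hfi : Integrable f := (integrable_indicator_iff measurableSet_ball).2 (int_g hI hP hφ x)
  rw [← integral_indicator measurableSet_ball, ← hf, ← Complex.integral_comp_polarCoord_symm]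
  have hpm : Measurable (fun p : ℝ × ℝ => Complex.polarCoord.symm p) := by
    have : (fun p : ℝ × ℝ => Complex.polarCoord.symm p) =
        fun p : ℝ × ℝ => (p.1 : ℂ) * (Real.cos p.2 + Real.sin p.2 * Complex.I) := by
      funext p
      exact Complex.polarCoord_symm_apply p
    rw [this]
    fun_prop
  have hint : IntegrableOn (fun p : ℝ × ℝ => p.1 • f (Complex.polarCoord.symm p))
      (Ioi (0 : ℝ) ×ˢ Ioo (-Real.pi) Real.pi) (volume.prod volume) := by
    refine ⟨(measurable_fst.smul (hfm.comp hpm)).aestronglyMeasurable, ?_⟩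
    have h1 : ∫⁻ p in polarCoord.target, ENNReal.ofReal p.1 • ‖f (Complex.polarCoord.symm p)‖ₑ =
        ∫⁻ z, ‖f z‖ₑ := Complex.lintegral_comp_polarCoord_symm fun z => ‖f z‖ₑ
    have h2 : ∫⁻ p in (Ioi (0 : ℝ) ×ˢ Ioo (-Real.pi) Real.pi),
        ‖p.1 • f (Complex.polarCoord.symm p)‖ₑ ∂(volume.prod volume) =
        ∫⁻ p in polarCoord.target, ENNReal.ofReal p.1 • ‖f (Complex.polarCoord.symm p)‖ₑ := by
      apply setLIntegral_congr_fun (measurableSet_Ioi.prod measurableSet_Ioo)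
      intro p hp
      have hp1 : 0 < p.1 := hp.1
      simp only
      rw [enorm_smul, smul_eq_mul, Real.enorm_eq_ofReal hp1.le]
    unfold HasFiniteIntegral
    rw [h2, h1]
    exact hfi.2
  have h3 := setIntegral_prod _ hint
  rw [polarCoord_target, Measure.volume_eq_prod, h3]
  simp only [polar_eq]

theorem innerJ {φ : ℂ → ℂ} {P : ℝ} (hP : 1 < P) (hφ : DifferentiableOn ℂ φ (ball 0 P)) (x : ℂ)
    (hx1 : ‖x‖ < 1) (r : ℝ) (hr : 0 < r) (hne : r ≠ ‖x‖) :
    ∫ θ in Ioo (-Real.pi) Real.pi, r • (ball (0 : ℂ) 1).indicator (g φ x) (circleMap 0 r θ) =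
      (Ioo (0 : ℝ) ‖x‖).indicator
        (fun r : ℝ => -(2 * Real.pi * r / conj x) * deriv φ ((r : ℂ) ^ 2 / conj x)) r := by
  have hnorm : ∀ θ, ‖circleMap 0 r θ‖ = r := fun θ => by simp [abs_of_pos hr]
  rcases lt_or_ge r 1 with hr1 | hr1
  · have h1 : ∀ θ, (ball (0 : ℂ) 1).indicator (g φ x) (circleMap 0 r θ) =
        conj (1 / (circleMap 0 r θ - x)) * deriv φ (circleMap 0 r θ) := by
      intro θ
      rw [indicator_of_mem]
      · rfl
      · rw [mem_ball_zero_iff, hnorm]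
        exact hr1
    simp only [h1]
    rw [integral_smul, ← integral_Ioc_eq_integral_Ioo,
      ← intervalIntegral.integral_of_le (by linarith [Real.pi_pos])]
    have h2 := innr x r hr hne (deriv φ)
    have h3 : ∫ θ in (-Real.pi)..Real.pi,
        conj (1 / (circleMap 0 r θ - x)) * deriv φ (circleMap 0 r θ) =
        -I * (∮ z in C(0, r), deriv φ z / ((r : ℂ) ^ 2 - conj x * z)) := by
      rw [h2, ← mul_assoc, neg_mul, I_mul_I, neg_neg, one_mul]
    rw [h3]
    rcases lt_or_gt_of_ne hne with hlt | hgt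
    · rw [indicator_of_mem (mem_Ioo.2 ⟨hr, hlt⟩), valSmall hP hφ x r hr hlt hx1,
        Complex.real_smul]
      have : -I * (-(2 * (Real.pi : ℂ) * I / conj x) * deriv φ ((r : ℂ) ^ 2 / conj x)) =
          (I * I) * (2 * Real.pi / conj x) * deriv φ ((r : ℂ) ^ 2 / conj x) := by ring
      rw [this, I_mul_I]
      ring
    · rw [indicator_of_notMem (fun h => not_lt.2 hgt.le h.2), valBig hP hφ x r hr1 hgt,
        mul_zero, smul_zero]
  · have h1 : ∀ θ, (ball (0 : ℂ) 1).indicator (g φ x) (circleMap 0 r θ) = 0 := by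
      intro θ
      rw [indicator_of_notMem]
      rw [mem_ball_zero_iff, hnorm]
      exact not_lt.2 hr1
    simp only [h1, smul_zero, integral_zero]
    rw [indicator_of_notMem]
    intro h
    linarith [h.2]

theorem ftc {φ : ℂ → ℂ} {P : ℝ} (hP : 1 < P) (hφ : DifferentiableOn ℂ φ (ball 0 P)) (x : ℂ)
    (hx1 : ‖x‖ < 1) (hx0 : x ≠ 0) :
    ∫ r in (0 : ℝ)..‖x‖, -(2 * Real.pi * (r : ℂ) / conj x) * deriv φ ((r : ℂ) ^ 2 / conj x) =
      -(Real.pi : ℂ) * (φ x - φ 0) := by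
  have hxp : 0 < ‖x‖ := norm_pos_iff.2 hx0
  have hc0 : conj x ≠ 0 := (map_ne_zero _).2 hx0
  have hw : ∀ r ∈ uIcc (0 : ℝ) ‖x‖, (r : ℂ) ^ 2 / conj x ∈ ball (0 : ℂ) P := by
    intro r hr
    rw [uIcc_of_le hxp.le] at hr
    rw [mem_ball_zero_iff, norm_div, RCLike.norm_conj, norm_pow, Complex.norm_real,
      Real.norm_eq_abs, sq_abs, div_lt_iff₀ hxp]
    nlinarith [hr.1, hr.2]
  have hder : ∀ r ∈ uIcc (0 : ℝ) ‖x‖,
      HasDerivAt (fun r : ℝ => -(Real.pi : ℂ) * φ ((r : ℂ) ^ 2 / conj x))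
        (-(2 * Real.pi * (r : ℂ) / conj x) * deriv φ ((r : ℂ) ^ 2 / conj x)) r := by
    intro r hr
    have h1 : HasDerivAt (fun r : ℝ => (r : ℂ) ^ 2 / conj x) (2 * (r : ℂ) / conj x) r := by
      have h0 : HasDerivAt (fun r : ℝ => (r : ℂ)) 1 r := Complex.ofRealCLM.hasDerivAt
      have := (h0.pow 2).div_const (conj x)
      simpa using this
    have h2 : HasDerivAt φ (deriv φ ((r : ℂ) ^ 2 / conj x)) ((r : ℂ) ^ 2 / conj x) :=
      (hφ.differentiableAt (isOpen_ball.mem_nhds (hw r hr))).hasDerivAt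
    have h3 := (h2.comp r h1).const_mul (-(Real.pi : ℂ))
    have h5 : -(Real.pi : ℂ) * (deriv φ ((r : ℂ) ^ 2 / conj x) * (2 * (r : ℂ) / conj x)) =
        -(2 * Real.pi * (r : ℂ) / conj x) * deriv φ ((r : ℂ) ^ 2 / conj x) := by ring
    rw [h5] at h3
    exact h3
  have hcont : ContinuousOn (fun r : ℝ => -(2 * Real.pi * (r : ℂ) / conj x) *
      deriv φ ((r : ℂ) ^ 2 / conj x)) (uIcc (0 : ℝ) ‖x‖) := by
    apply ContinuousOn.mul
    · exact (by fun_prop : Continuous fun r : ℝ =>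
        -(2 * Real.pi * (r : ℂ) / conj x)).continuousOn
    · exact (diffH hφ).continuousOn.comp
        (by fun_prop : Continuous fun r : ℝ => (r : ℂ) ^ 2 / conj x).continuousOn hw
  rw [intervalIntegral.integral_eq_sub_of_hasDerivAt hder hcont.intervalIntegrable]
  have h4 : ((‖x‖ : ℝ) : ℂ) ^ 2 / conj x = x := by
    rw [div_eq_iff hc0, Complex.mul_conj, Complex.normSq_eq_norm_sq]
    push_cast
    ring
  rw [h4]
  simp only [Complex.ofReal_zero, ne_eq, OfNat.ofNat_ne_zero, not_false_eq_true, zero_pow, zero_div]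
  ring

end CrX

theorem prfCrX (hI : InvR) : CrX := by
  intro φ P hP hφ x hx1
  have h0 : ∫ z in ball (0 : ℂ) 1, conj (1 / (z - x)) * deriv φ z =
      ∫ z in ball (0 : ℂ) 1, CrX.g φ x z := rfl
  rw [h0, CrX.toPolar hI hP hφ x]
  have h1 : ∫ r in Ioi (0 : ℝ), (∫ θ in Ioo (-Real.pi) Real.pi,
      r • (ball (0 : ℂ) 1).indicator (CrX.g φ x) (circleMap 0 r θ)) =
      ∫ r in Ioi (0 : ℝ), (Ioo (0 : ℝ) ‖x‖).indicator
        (fun r : ℝ => -(2 * Real.pi * r / conj x) * deriv φ ((r : ℂ) ^ 2 / conj x)) r := by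
    apply setIntegral_congr_ae measurableSet_Ioi
    have hne : ∀ᵐ r : ℝ, r ≠ ‖x‖ := by
      rw [ae_iff]
      simp
    filter_upwards [hne] with r hr hr0
    exact CrX.innerJ hP hφ x hx1 r hr0 hr
  rw [h1, setIntegral_indicator measurableSet_Ioo]
  have h2 : Ioi (0 : ℝ) ∩ Ioo (0 : ℝ) ‖x‖ = Ioo (0 : ℝ) ‖x‖ :=
    inter_eq_right.2 fun r hr => hr.1
  rw [h2]
  by_cases hx0 : x = 0
  · subst hx0
    simp
  · rw [← integral_Ioc_eq_integral_Ioo, ← intervalIntegral.integral_of_le (norm_nonneg _)]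
    exact CrX.ftc hP hφ x hx1 hx0

end Gol
end Pool.Agent.MultS
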