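import Pool.Agent.Work.MP_b17785_an.Gol.Stmts
import Pool.Agent.Work.MP_b17785_an.Bd.B04
import Pool.Agent.Work.MP_b17785_an.K2
import Pool.Agent.Work.MP_b17785_an.Bd.B05

/-!
# MP_b17785_an, Gol, item GrowL: the lower growth theorem
-/

set_option autoImplicit false

open Complex Metric Set Filter Topology MeasureTheory

namespace Pool.Agent.MultS
namespace Gol
namespace GrowL

theorem bieb : Bieb := prfBieb prfSqrtT prfAreaOut

theorem dist' : Dist := prfDist bieb

/-- the Koebe one quarter theorem -/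
theorem koebe {f : ℂ → ℂ} (hf : Sc f) (w : ℂ) (hw : ‖w‖ < 1 / 4) :
    ∃ z ∈ ball (0 : ℂ) 1, f z = w := by
  by_contra hcon
  push Not at hcon
  have h0 : (0 : ℂ) ∈ ball (0 : ℂ) 1 := mem_ball_self one_pos
  have hm := isOpen_ball.mem_nhds h0
  have hw0 : w ≠ 0 := fun h => hcon 0 h0 (by rw [hf.2.2.1, h])
  have hne : ∀ z ∈ ball (0 : ℂ) 1, w - f z ≠ 0 := fun z hz h =>
    hcon z hz (sub_eq_zero.1 h).symm
  set g : ℂ → ℂ := fun z => w * f z / (w - f z) with hgdef
  have hgd : ∀ z ∈ ball (0 : ℂ) 1, HasDerivAt g (w ^ 2 * deriv f z / (w - f z) ^ 2) z := by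
    intro z hz
    have h1 := (hf.1.differentiableAt (isOpen_ball.mem_nhds hz)).hasDerivAt
    have h2 := (h1.const_mul w).fun_div (h1.const_sub w) (hne z hz)
    refine h2.congr_deriv ?_
    have := hne z hz
    field_simp
    ring
  have hg : Sc g := by
    refine ⟨fun z hz => (hgd z hz).differentiableAt.differentiableWithinAt, ?_, ?_, ?_⟩
    · intro a ha b hb hab
      have h1 : w * f a / (w - f a) = w * f b / (w - f b) := hab
      rw [div_eq_div_iff (hne a ha) (hne b hb)] at h1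
      have h2 : w ^ 2 * (f a - f b) = 0 := by linear_combination h1
      rcases mul_eq_zero.1 h2 with h3 | h3
      · exact absurd h3 (pow_ne_zero 2 hw0)
      · exact hf.2.1 ha hb (sub_eq_zero.1 h3)
    · rw [hgdef]
      simp [hf.2.2.1]
    · rw [(hgd 0 h0).deriv, hf.2.2.1, hf.2.2.2, sub_zero, mul_one, div_self (pow_ne_zero 2 hw0)]
  have hev : deriv g =ᶠ[𝓝 0] fun z => w ^ 2 * deriv f z / (w - f z) ^ 2 := by
    filter_upwards [hm] with z hz using (hgd z hz).deriv
  have hf1 := (hf.1.differentiableAt hm).hasDerivAt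
  have hf2 : HasDerivAt (deriv f) (deriv (deriv f) 0) 0 :=
    ((hf.1.deriv isOpen_ball).differentiableAt hm).hasDerivAt
  have h3 : HasDerivAt (fun z => w ^ 2 * deriv f z / (w - f z) ^ 2)
      (deriv (deriv f) 0 + 2 / w) 0 := by
    have h4 := (hf2.const_mul (w ^ 2)).fun_div ((hf1.const_sub w).fun_pow 2)
      (pow_ne_zero 2 (hne 0 h0))
    refine h4.congr_deriv ?_
    rw [hf.2.2.1, hf.2.2.2]
    simp only [sub_zero, mul_one, Nat.cast_ofNat, Nat.add_one_sub_one, pow_one]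
    field_simp
    ring_nf
  have htc : tc g 2 = tc f 2 + 1 / w := by
    rw [tc, iteratedDeriv_succ, iteratedDeriv_one, hev.deriv_eq, h3.deriv, tc,
      iteratedDeriv_succ, iteratedDeriv_one]
    simp only [Nat.factorial]
    push_cast
    field_simp
  have h5 := bieb f hf
  have h6 := bieb g hg
  rw [htc] at h6
  have h7 : ‖1 / w‖ ≤ 4 := by
    have e1 : 1 / w = (tc f 2 + 1 / w) - tc f 2 := by ring
    rw [e1]
    refine (norm_sub_le _ _).trans ?_
    linarith
  rw [norm_div, norm_one] at h7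
  have hwp : 0 < ‖w‖ := norm_pos_iff.2 hw0
  rw [div_le_iff₀ hwp] at h7
  linarith

/-- The distortion theorem (lower bound). -/
theorem distL (f : ℂ → ℂ) (hf : Sc f) (x : ℂ) (hx : ‖x‖ = 1) (r : ℝ)
    (hr0 : 0 ≤ r) (hr1 : r < 1) : (1 - r) / (1 + r) ^ 3 ≤ ‖deriv f ((r : ℂ) * x)‖ := by
  have hd : DifferentiableOn ℂ f (ball 0 1) := hf.1
  have hd' : DifferentiableOn ℂ (deriv f) (ball 0 1) := hd.deriv isOpen_ball
  have hne : ∀ z ∈ ball (0 : ℂ) 1, deriv f z ≠ 0 := prfDerNe _ f isOpen_ball hd hf.2.1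
  have key : ∀ t : ℝ, 0 ≤ t → t < 1 →
      HasDerivAt (fun s : ℝ => ‖deriv f ((s : ℂ) * x)‖ ^ 2 * ((1 + s) ^ 3 / (1 - s)) ^ 2)
        (2 * (starRingEnd ℂ (deriv f ((t : ℂ) * x)) * (deriv (deriv f) ((t : ℂ) * x) * x)).re *
          ((1 + t) ^ 3 / (1 - t)) ^ 2 + ‖deriv f ((t : ℂ) * x)‖ ^ 2 *
          (2 * ((1 + t) ^ 3 / (1 - t)) *
            (((3 * (1 + t) ^ 2) * (1 - t) - (1 + t) ^ 3 * (-1)) / (1 - t) ^ 2))) t := by
    intro t ht0 ht1
    have h1t : (1 - t) ≠ 0 := by linarith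
    have e1 := hasDerivAt_ray hd' hx ht0 ht1
    have e2 := e1.norm_sq
    rw [Complex.inner] at e2
    have e3 : HasDerivAt (fun s : ℝ => (1 + s) ^ 3) (3 * (1 + t) ^ 2) t := by
      have := ((hasDerivAt_id t).const_add 1).fun_pow 3
      simpa using this
    have e4 : HasDerivAt (fun s : ℝ => 1 - s) (-1) t := by
      simpa using (hasDerivAt_id t).const_sub 1
    have e5 := e3.fun_div e4 h1t
    have e6 := e5.fun_pow 2
    have e7 := e2.fun_mul e6
    refine e7.congr_deriv ?_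
    simp only [Nat.cast_ofNat, Nat.add_one_sub_one, pow_one]
    rw [mul_comm (deriv (deriv f) ((t : ℂ) * x) * x)]
  have hmono : MonotoneOn
      (fun s : ℝ => ‖deriv f ((s : ℂ) * x)‖ ^ 2 * ((1 + s) ^ 3 / (1 - s)) ^ 2)
      (Set.Icc 0 r) := by
    apply monotoneOn_of_deriv_nonneg (convex_Icc 0 r)
    · intro t ht
      exact (key t ht.1 (ht.2.trans_lt hr1)).continuousAt.continuousWithinAt
    · intro t ht
      rw [interior_Icc] at ht
      exact (key t ht.1.le (ht.2.trans hr1)).differentiableAt.differentiableWithinAt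
    · intro t ht
      rw [interior_Icc] at ht
      have ht0 : 0 < t := ht.1
      have ht1 : t < 1 := ht.2.trans hr1
      rw [(key t ht0.le ht1).deriv]
      have hz := ray_mem hx ht0.le ht1
      have hD := dist' f hf _ hz
      have hnz : ‖(t : ℂ) * x‖ = t := by simp [hx, abs_of_pos ht0]
      rw [hnz] at hD
      have hu := hne _ hz
      set u := deriv f ((t : ℂ) * x) with hudef
      set v := deriv (deriv f) ((t : ℂ) * x) with hvdef
      have h1t : 0 < 1 - t ^ 2 := by nlinarith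
      have hre : (2 * t ^ 2 - 4 * t) / (1 - t ^ 2) ≤ ((t : ℂ) * x * v / u).re := by
        have h1 := (Complex.abs_re_le_norm _).trans hD
        rw [Complex.sub_re, Complex.ofReal_re] at h1
        have h2 : (2 * t ^ 2 - 4 * t) / (1 - t ^ 2) =
            2 * t ^ 2 / (1 - t ^ 2) - 4 * t / (1 - t ^ 2) := by ring
        rw [h2]
        have h3 := (abs_le.1 h1).1
        linarith
      have hcx : (starRingEnd ℂ u * (v * x)).re = ‖u‖ ^ 2 * (x * v / u).re := by
        have h1 : starRingEnd ℂ u * (v * x) = ((‖u‖ ^ 2 : ℝ) : ℂ) * (x * v / u) := by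
          have h2 : ((‖u‖ ^ 2 : ℝ) : ℂ) = starRingEnd ℂ u * u := by
            rw [Complex.conj_mul']
            push_cast; ring
          rw [h2]; field_simp
        rw [h1, Complex.re_ofReal_mul]
      have hre2 : (2 * t - 4) / (1 - t ^ 2) ≤ (x * v / u).re := by
        have h1 : (t : ℂ) * x * v / u = (t : ℂ) * (x * v / u) := by ring
        rw [h1, Complex.re_ofReal_mul] at hre
        have h2 : (2 * t ^ 2 - 4 * t) / (1 - t ^ 2) = t * ((2 * t - 4) / (1 - t ^ 2)) := by ring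
        rw [h2] at hre
        exact le_of_mul_le_mul_left hre ht0
      rw [hcx]
      have h1t' : 0 < 1 - t := by linarith
      have h1p : 0 < 1 + t := by linarith
      have hid : (2 * (‖u‖ ^ 2 * (x * v / u).re) * ((1 + t) ^ 3 / (1 - t)) ^ 2 + ‖u‖ ^ 2 *
          (2 * ((1 + t) ^ 3 / (1 - t)) *
            (((3 * (1 + t) ^ 2) * (1 - t) - (1 + t) ^ 3 * (-1)) / (1 - t) ^ 2))) =
          2 * ‖u‖ ^ 2 * ((1 + t) ^ 3 / (1 - t)) ^ 2 *
            ((x * v / u).re - (2 * t - 4) / (1 - t ^ 2)) := by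
        have h3 : 1 - t ^ 2 = (1 - t) * (1 + t) := by ring
        rw [h3]
        field_simp
        ring
      rw [hid]
      apply mul_nonneg
      · positivity
      · linarith
  have hfin := hmono (Set.left_mem_Icc.2 hr0) (Set.right_mem_Icc.2 hr0) hr0
  simp only [Complex.ofReal_zero, zero_mul, hf.2.2.2] at hfin
  have h1r : 0 < 1 - r := by linarith
  have h1p : 0 < 1 + r := by linarith
  have h2 : 1 ^ 2 ≤ (‖deriv f ((r : ℂ) * x)‖ * ((1 + r) ^ 3 / (1 - r))) ^ 2 := by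
    rw [mul_pow]; simpa using hfin
  have h3 : 1 ≤ ‖deriv f ((r : ℂ) * x)‖ * ((1 + r) ^ 3 / (1 - r)) :=
    (pow_le_pow_iff_left₀ (by norm_num) (by positivity) (by norm_num)).1 h2
  rw [div_le_iff₀ (by positivity)]
  have h4 : ‖deriv f ((r : ℂ) * x)‖ * ((1 + r) ^ 3 / (1 - r)) =
      (‖deriv f ((r : ℂ) * x)‖ * (1 + r) ^ 3) / (1 - r) := by ring
  rw [h4, le_div_iff₀ h1r, one_mul] at h3
  exact h3

theorem distZ (f : ℂ → ℂ) (hf : Sc f) (z : ℂ) (hz : z ∈ ball (0 : ℂ) 1) (hz0 : z ≠ 0) :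
    (1 - ‖z‖) / (1 + ‖z‖) ^ 3 ≤ ‖deriv f z‖ := by
  have hzn : 0 < ‖z‖ := norm_pos_iff.2 hz0
  have hz1 : ‖z‖ < 1 := by simpa using hz
  set x : ℂ := z / (‖z‖ : ℂ) with hxdef
  have hx : ‖x‖ = 1 := by
    rw [hxdef, norm_div, Complex.norm_real, Real.norm_of_nonneg hzn.le, div_self hzn.ne']
  have hzx : ((‖z‖ : ℝ) : ℂ) * x = z := by
    rw [hxdef]
    have : ((‖z‖ : ℝ) : ℂ) ≠ 0 := by exact_mod_cast hzn.ne'
    field_simp
  have h1 := distL f hf x hx ‖z‖ hzn.le hz1
  rwa [hzx] at h1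

end GrowL

open GrowL in
theorem prfGrowL : GrowL := by
  intro f hf z hz
  have hz1 : ‖z‖ < 1 := by simpa using hz
  have hn0 : 0 ≤ ‖z‖ := norm_nonneg z
  rcases le_or_gt (1 / 4) ‖f z‖ with h4 | h4
  · refine le_trans ?_ h4
    rw [div_le_div_iff₀ (by positivity) (by norm_num)]
    nlinarith [sq_nonneg (1 - ‖z‖)]
  by_cases hz0 : z = 0
  · subst hz0; simp
  have h0 : (0 : ℂ) ∈ ball (0 : ℂ) 1 := mem_ball_self one_pos
  set w := f z with hwdef
  have hw0 : w ≠ 0 := by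
    intro h
    apply hz0
    apply hf.2.1 hz h0
    rw [hf.2.2.1, ← hwdef, h]
  set g := Function.invFunOn f (ball (0 : ℂ) 1) with hg
  have hgl : ∀ z ∈ ball (0 : ℂ) 1, g (f z) = z := hf.2.1.leftInvOn_invFunOn
  set γ : ℝ → ℂ := fun t => g ((t : ℂ) * w) with hγ
  -- the points of the segment
  have hpt : ∀ t : ℝ, 0 ≤ t → t ≤ 1 → γ t ∈ ball (0 : ℂ) 1 ∧ f (γ t) = (t : ℂ) * w ∧
      HasDerivAt γ ((deriv f (γ t))⁻¹ * w) t := by
    intro t ht0 ht1
    have hn : ‖(t : ℂ) * w‖ < 1 / 4 := by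
      rw [norm_mul, Complex.norm_real, Real.norm_of_nonneg ht0]
      calc t * ‖w‖ ≤ 1 * ‖w‖ := mul_le_mul_of_nonneg_right ht1 (norm_nonneg w)
        _ < 1 / 4 := by rw [one_mul]; exact h4
    obtain ⟨ζ, hζ, he⟩ := koebe hf _ hn
    have e1 : γ t = ζ := by
      rw [hγ]
      simp only
      rw [← he, hgl ζ hζ]
    rw [e1]
    refine ⟨hζ, he, ?_⟩
    have hd := Pool.Agent.HolInv.hasDerivAt_inv isOpen_ball hf.1 hf.2.1 hζ
      (prfDerNe _ f isOpen_ball hf.1 hf.2.1 ζ hζ)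
    rw [he] at hd
    have hd2 : HasDerivAt g (deriv f ζ)⁻¹ ((t : ℂ) * w) := hd
    have h3 : HasDerivAt (fun s : ℂ => s * w) w ((t : ℝ) : ℂ) := by
      simpa using (hasDerivAt_id ((t : ℝ) : ℂ)).mul_const w
    have h5 : HasDerivAt (g ∘ fun s : ℂ => s * w) ((deriv f ζ)⁻¹ * w) ((t : ℝ) : ℂ) :=
      HasDerivAt.comp (h₂ := g) (h := fun s : ℂ => s * w) ((t : ℝ) : ℂ) hd2 h3
    exact h5.comp_ofReal
  have hγ0 : γ 0 = 0 := by
    rw [hγ]
    simp only [Complex.ofReal_zero, zero_mul]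
    have := hgl 0 h0
    rwa [hf.2.2.1] at this
  have hγ1 : γ 1 = z := by
    rw [hγ]
    simp only [Complex.ofReal_one, one_mul]
    exact hgl z hz
  -- the derivative of the norm
  have hder : ∀ t : ℝ, 0 < t → t < 1 → ∃ D : ℝ,
      HasDerivAt (fun s : ℝ => t * 0 + ‖w‖ * s - ‖γ s‖ / (1 + ‖γ s‖) ^ 2) D t ∧ 0 ≤ D := by
    intro t ht0 ht1
    obtain ⟨hb, hfb, hd⟩ := hpt t ht0.le ht1.le
    have hb1 : ‖γ t‖ < 1 := by simpa using hb
    have hγt : γ t ≠ 0 := by
      intro h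
      rw [h, hf.2.2.1] at hfb
      rcases mul_eq_zero.1 hfb.symm with h1 | h1
      · exact ht0.ne' (by exact_mod_cast h1)
      · exact hw0 h1
    have hN : 0 < ‖γ t‖ := norm_pos_iff.2 hγt
    have e2 := hd.norm_sq
    rw [Complex.inner] at e2
    have e3 : HasDerivAt (fun s : ℝ => ‖γ s‖)
        ((((deriv f (γ t))⁻¹ * w) * (starRingEnd ℂ) (γ t)).re / ‖γ t‖) t := by
      have e4 := e2.sqrt (by positivity)
      have e5 : (fun s : ℝ => Real.sqrt (‖γ s‖ ^ 2)) = fun s : ℝ => ‖γ s‖ := by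
        funext s
        exact Real.sqrt_sq (norm_nonneg _)
      rw [e5] at e4
      refine e4.congr_deriv ?_
      rw [Real.sqrt_sq (norm_nonneg _)]
      field_simp
    set N := ‖γ t‖ with hNdef
    set N' := (((deriv f (γ t))⁻¹ * w) * (starRingEnd ℂ) (γ t)).re / ‖γ t‖ with hN'
    have hdist := distZ f hf (γ t) hb hγt
    rw [← hNdef] at hdist
    have hpos : 0 < (1 - N) / (1 + N) ^ 3 := by
      apply div_pos (by linarith) (by positivity)
    have hN'le : N' * ((1 - N) / (1 + N) ^ 3) ≤ ‖w‖ := by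
      have e6 : N' ≤ ‖w‖ / ‖deriv f (γ t)‖ := by
        rw [hN', div_le_iff₀ hN]
        refine (Complex.re_le_norm _).trans ?_
        rw [norm_mul, norm_mul, norm_inv, Complex.norm_conj, ← hNdef]
        apply le_of_eq
        rw [div_eq_inv_mul]
      have hfp : 0 < ‖deriv f (γ t)‖ := lt_of_lt_of_le hpos hdist
      calc N' * ((1 - N) / (1 + N) ^ 3) ≤ (‖w‖ / ‖deriv f (γ t)‖) * ((1 - N) / (1 + N) ^ 3) :=
            mul_le_mul_of_nonneg_right e6 hpos.le
        _ ≤ (‖w‖ / ‖deriv f (γ t)‖) * ‖deriv f (γ t)‖ :=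
            mul_le_mul_of_nonneg_left hdist (by positivity)
        _ = ‖w‖ := by field_simp
    refine ⟨‖w‖ - N' * ((1 - N) / (1 + N) ^ 3), ?_, by linarith⟩
    have e7 : HasDerivAt (fun s : ℝ => (1 + ‖γ s‖) ^ 2) (2 * (1 + N) * N') t := by
      have := (e3.const_add 1).fun_pow 2
      refine this.congr_deriv ?_
      simp only [Nat.cast_ofNat, Nat.add_one_sub_one, pow_one]
      rfl
    have e8 := e3.fun_div e7 (by positivity)
    have e9 : HasDerivAt (fun s : ℝ => t * 0 + ‖w‖ * s) ‖w‖ t := by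
      simpa using (hasDerivAt_id t).const_mul ‖w‖
    refine (e9.fun_sub e8).congr_deriv ?_
    rw [← hNdef]
    have h1N : 1 + N ≠ 0 := by positivity
    field_simp
    ring
  have hmono : MonotoneOn (fun s : ℝ => ‖w‖ * s - ‖γ s‖ / (1 + ‖γ s‖) ^ 2) (Set.Icc 0 1) := by
    apply monotoneOn_of_deriv_nonneg (convex_Icc 0 1)
    · intro t ht
      have h5 := (hpt t ht.1 ht.2).2.2.continuousAt
      apply ContinuousAt.continuousWithinAt
      have h6 : ContinuousAt (fun s => ‖γ s‖) t := h5.norm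
      exact (continuousAt_const.mul continuousAt_id).sub
        (h6.div ((continuousAt_const.add h6).pow 2) (by positivity))
    · intro t ht
      rw [interior_Icc] at ht
      obtain ⟨D, hD, _⟩ := hder t ht.1 ht.2
      simp only [mul_zero, zero_add] at hD
      exact hD.differentiableAt.differentiableWithinAt
    · intro t ht
      rw [interior_Icc] at ht
      obtain ⟨D, hD, hD0⟩ := hder t ht.1 ht.2
      simp only [mul_zero, zero_add] at hD
      rw [hD.deriv]
      exact hD0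
  have hfin := hmono (Set.left_mem_Icc.2 zero_le_one) (Set.right_mem_Icc.2 zero_le_one)
    zero_le_one
  simp only [hγ0, hγ1, norm_zero, mul_zero, zero_div, sub_zero, mul_one] at hfin
  linarith

end Gol
end Pool.Agent.MultS
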