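import Pool.Agent.Work.MP_b17785_an.Bd.B03
import Pool.Agent.Work.MP_b17785_an.Gol.CrX
import Pool.Agent.Work.MP_b17785_an.Gol.GrowL

/-!
# Goluzin's inequality for two points
-/

set_option autoImplicit false

open Complex Metric Set Filter Topology MeasureTheory

namespace Pool.Agent.MultS

/-- **Two point distortion theorem** (Goluzin) for the class `S`. -/
theorem gol (f : ℂ → ℂ) (hf : Sc f) (r : ℝ) (h0 : 0 ≤ r) (h1 : r < 1) (a b : ℂ)
    (ha : ‖a‖ ≤ r) (hb : ‖b‖ ≤ r) : (1 - r) / (1 + r) ^ 3 * ‖a - b‖ ≤ ‖f a - f b‖ :=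
  Gol.prfGolS Gol.prfPhiEx
    (Gol.prfCore Gol.prfInvR (Gol.prfCrX Gol.prfInvR) Gol.prfCrY
      (Gol.prfLowA Gol.prfAnnE Gol.prfDiscE) (Gol.prfUpp Gol.prfAnnE) Gol.prfBds Gol.prfLimD)
    Gol.prfGrowL f hf r h0 h1 a b ha hb

end Pool.Agent.MultS
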