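import Pool.Agent.Work.MP_b17785_an.Defs

/-!
# Goluzin's inequality for two points, by the area of `log (1/f - 1/f(x))`: statements
-/

set_option autoImplicit false

open Complex Metric Set Filter Topology MeasureTheory
open scoped ENNReal ComplexConjugate

namespace Pool.Agent.MultS
namespace Gol

/-- the disk without two small disks -/
def Ds (x : ℂ) (s : ℝ) : Set ℂ := ball 0 1 \ (closedBall 0 s ∪ closedBall x s)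

/-- the logarithmic derivative of `1/z - 1/x` -/
noncomputable def AA (x z : ℂ) : ℂ := 1 / (z - x) - 1 / z

/-- the kernel of the point evaluation at `y` in the Dirichlet space (derivative) -/
noncomputable def GG (y z : ℂ) : ℂ := conj y / (1 - conj y * z)

/-- `f` is holomorphic and injective on a neighbourhood of the closed disk, `f 0 = 0`,
`f' 0 = 1`. -/
def Nice (f : ℂ → ℂ) (P : ℝ) : Prop :=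
  1 < P ∧ DifferentiableOn ℂ f (ball 0 P) ∧ InjOn f (ball 0 P) ∧ f 0 = 0 ∧ deriv f 0 = 1

/-- [AnnE] -/
def AnnE : Prop :=
  ∀ δ R : ℝ, 0 < δ → δ < R →
    ∫⁻ w in {w : ℂ | δ < ‖w‖ ∧ ‖w‖ < R}, ENNReal.ofReal (1 / ‖w‖ ^ 2) =
      ENNReal.ofReal (2 * Real.pi * Real.log (R / δ))

/-- [DiscE] -/
def DiscE : Prop :=
  ∀ c : ℂ, 1 < ‖c‖ →
    ∫⁻ u in ball (0 : ℂ) 1, ENNReal.ofReal (1 / ‖c + u‖ ^ 2) =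
      ENNReal.ofReal (-(Real.pi * Real.log (1 - 1 / ‖c‖ ^ 2)))

/-- [InvR] -/
def InvR : Prop :=
  ∀ x : ℂ, IntegrableOn (fun z : ℂ => 1 / ‖z - x‖) (ball (0 : ℂ) 1)

/-- [CrX] -/
def CrX : Prop :=
  ∀ (φ : ℂ → ℂ) (P : ℝ), 1 < P → DifferentiableOn ℂ φ (ball 0 P) →
    ∀ x : ℂ, ‖x‖ < 1 →
      ∫ z in ball (0 : ℂ) 1, conj (1 / (z - x)) * deriv φ z = -(Real.pi : ℂ) * (φ x - φ 0)

/-- [CrY] -/
def CrY : Prop :=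
  ∀ (φ : ℂ → ℂ) (P : ℝ), 1 < P → DifferentiableOn ℂ φ (ball 0 P) →
    ∀ y : ℂ, ‖y‖ < 1 →
      ∫ z in ball (0 : ℂ) 1, conj (GG y z) * deriv φ z = (Real.pi : ℂ) * (φ y - φ 0)

/-- [Low] -/
def LowA : Prop :=
  ∀ (x : ℂ) (s : ℝ), 0 < ‖x‖ → ‖x‖ < 1 → 0 < s → s < ‖x‖ →
    1 + 1 / ‖x‖ < 1 / s - 1 / ‖x‖ → s / (‖x‖ * (‖x‖ - s)) < 1 / ‖x‖ - 1 →
    ENNReal.ofReal (2 * Real.pi * Real.log ((1 / s - 1 / ‖x‖) / (s / (‖x‖ * (‖x‖ - s)))) +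
      Real.pi * Real.log (1 - ‖x‖ ^ 2)) ≤
      ∫⁻ z in Ds x s, ENNReal.ofReal (‖AA x z‖ ^ 2)

/-- [Upp] -/
def Upp : Prop :=
  ∀ (m : ℂ → ℂ) (U : Set ℂ) (δ R : ℝ), IsOpen U → DifferentiableOn ℂ m U → InjOn m U →
    0 < δ → δ < R → (∀ z ∈ U, δ < ‖m z‖ ∧ ‖m z‖ < R) →
    ∫⁻ z in U, ENNReal.ofReal (‖deriv m z / m z‖ ^ 2) ≤
      ENNReal.ofReal (2 * Real.pi * Real.log (R / δ))

/-- [Bds] -/
def Bds : Prop :=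
  ∀ (φ : ℂ → ℂ) (P : ℝ), 1 < P → DifferentiableOn ℂ φ (ball 0 P) → φ 0 = 0 →
    ∀ x : ℂ, 0 < ‖x‖ → ‖x‖ < 1 → ∀ η : ℝ, 0 < η → η < 1 →
      ∀ᶠ s in 𝓝[>] (0 : ℝ), ∀ z ∈ Ds x s,
        (1 - η) * s * Real.exp (φ x).re / ‖x‖ ^ 2 < ‖(1 / z - 1 / x) * Complex.exp (φ z)‖ ∧
        ‖(1 / z - 1 / x) * Complex.exp (φ z)‖ < (1 + η) / s

/-- [PhiEx] -/
def PhiEx : Prop :=
  ∀ (f : ℂ → ℂ) (P : ℝ), Nice f P → ∀ x : ℂ, 0 < ‖x‖ → ‖x‖ < 1 →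
    ∃ φ : ℂ → ℂ, DifferentiableOn ℂ φ (ball 0 P) ∧ φ 0 = 0 ∧
      ∀ z ∈ ball (0 : ℂ) P, z ≠ 0 →
        1 / f z - 1 / f x = (1 / z - 1 / x) * Complex.exp (φ z)

/-- [LimD] -/
def LimD : Prop :=
  ∀ (x : ℂ) (g : ℂ → ℂ), IntegrableOn g (ball (0 : ℂ) 1) →
    Tendsto (fun s : ℝ => ∫ z in Ds x s, g z) (𝓝[>] 0) (𝓝 (∫ z in ball (0 : ℂ) 1, g z))

/-- [Core] -/
def Core : Prop :=
  ∀ (f : ℂ → ℂ) (P : ℝ), Nice f P → ∀ x : ℂ, 0 < ‖x‖ → ‖x‖ < 1 → ∀ φ : ℂ → ℂ,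
    DifferentiableOn ℂ φ (ball 0 P) → φ 0 = 0 →
    (∀ z ∈ ball (0 : ℂ) P, z ≠ 0 → 1 / f z - 1 / f x = (1 / z - 1 / x) * Complex.exp (φ z)) →
    ∀ y : ℂ, 0 < ‖y‖ → ‖y‖ < 1 →
      ‖φ y‖ ^ 2 ≤ Real.log (1 - ‖x‖ ^ 2) * Real.log (1 - ‖y‖ ^ 2)

/-- [GrowL] the lower growth theorem. -/
def GrowL : Prop :=
  ∀ f : ℂ → ℂ, Sc f → ∀ z ∈ ball (0 : ℂ) 1, ‖z‖ / (1 + ‖z‖) ^ 2 ≤ ‖f z‖

/-- [Fin] Goluzin's inequality (in particular the two point distortion theorem). -/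
def GolS : Prop :=
  ∀ f : ℂ → ℂ, Sc f → ∀ r : ℝ, 0 ≤ r → r < 1 → ∀ a b : ℂ, ‖a‖ ≤ r → ‖b‖ ≤ r →
    (1 - r) / (1 + r) ^ 3 * ‖a - b‖ ≤ ‖f a - f b‖

end Gol
end Pool.Agent.MultS
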